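import Pool.Agent.H89.FC.TargetsN

/-!
# The fourth moment of the complete family: Abel summation for sums over ideals
-/

set_option autoImplicit false

open MeasureTheory Set Filter NumberField Topology
open scoped Real nonZeroDivisors

namespace Pool.Agent.H55.FC

open Pool.Agent.H31.CN Pool.Agent.H89.FM Pool.Agent.H61.FM Pool.Agent.H89.FC

theorem nm_ne_zero {K : Type} [Field K] [NumberField K] (I : (Ideal (𝓞 K))⁰) : nm I ≠ 0 := by
  unfold nm
  intro h
  rw [Ideal.absNorm_eq_zero_iff] at h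
  exact nonZeroDivisors.ne_zero I.2 h

theorem lc_zero {K : Type} [Field K] [NumberField K] (ψ : Ideal (𝓞 K) → ℂ) : lc ψ 0 = 0 := by
  unfold lc
  have h : Nn K 0 = ∅ := by
    rw [Finset.eq_empty_iff_forall_notMem]
    intro I hI
    exact nm_ne_zero I (mem_Nn.1 hI)
  rw [h, Finset.sum_empty]

theorem sum_Icc_lc {K : Type} [Field K] [NumberField K] (ψ : Ideal (𝓞 K) → ℂ) (n : ℕ) :
    ∑ k ∈ Finset.Icc 0 n, lc ψ k = ∑ k ∈ Finset.Icc 1 n, lc ψ k := by
  symm
  apply Finset.sum_subset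
  · intro k hk
    rw [Finset.mem_Icc] at hk ⊢
    omega
  · intro k hk hk'
    rw [Finset.mem_Icc] at hk hk'
    have h0 : k = 0 := by omega
    rw [h0]
    exact lc_zero ψ

/-- the ideals of norm at most `n` -/
noncomputable def Un (K : Type) [Field K] [NumberField K] (n : ℕ) : Finset (Ideal (𝓞 K))⁰ := by
  classical
  exact (Finset.Icc 0 n).biUnion (Nn K)

theorem mem_Un {K : Type} [Field K] [NumberField K] {n : ℕ} {I : (Ideal (𝓞 K))⁰} :
    I ∈ Un K n ↔ nm I ≤ n := by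
  unfold Un
  rw [Finset.mem_biUnion]
  constructor
  · rintro ⟨k, hk, hI⟩
    rw [Finset.mem_Icc] at hk
    rw [mem_Nn.1 hI]
    exact hk.2
  · intro h
    exact ⟨nm I, Finset.mem_Icc.2 ⟨Nat.zero_le _, h⟩, mem_Nn.2 rfl⟩

theorem sum_Un {K : Type} [Field K] [NumberField K] (ψ : Ideal (𝓞 K) → ℂ) (g : ℝ → ℂ) (n : ℕ) :
    ∑ I ∈ Un K n, ψ I * g (nm I) = ∑ k ∈ Finset.Icc 0 n, g k * lc ψ k := by
  classical
  unfold Un
  rw [Finset.sum_biUnion]
  · refine Finset.sum_congr rfl fun k _ => ?_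
    unfold lc
    rw [Finset.mul_sum]
    refine Finset.sum_congr rfl fun I hI => ?_
    rw [mem_Nn.1 hI]
    ring
  · intro k _ k' _ hkk'
    rw [Function.onFun, Finset.disjoint_left]
    intro I hI hI'
    exact hkk' ((mem_Nn.1 hI).symm.trans (mem_Nn.1 hI'))

theorem int_exp {c : ℝ} (hc : 0 < c) :
    IntegrableOn (fun x : ℝ => x ^ 2 * Real.exp (-(c * x))) (Ioi 1) := by
  have h := integrableOn_rpow_mul_exp_neg_mul_rpow (p := 1) (s := 2) (b := c) (by norm_num)
    one_pos hc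
  have h2 := h.mono_set (Ioi_subset_Ioi (zero_le_one (α := ℝ)))
  refine h2.congr_fun (fun x _ => ?_) measurableSet_Ioi
  show x ^ (2 : ℝ) * Real.exp (-c * x ^ (1 : ℝ)) = x ^ 2 * Real.exp (-(c * x))
  rw [Real.rpow_one, Real.rpow_two]
  ring_nf

theorem tendsto_exp_sq {c : ℝ} (hc : 0 < c) :
    Tendsto (fun x : ℝ => x ^ 2 * Real.exp (-(c * x))) atTop (𝓝 0) := by
  have h := Real.tendsto_pow_mul_exp_neg_atTop_nhds_zero 2
  have h2 : Tendsto (fun x : ℝ => c * x) atTop atTop := tendsto_id.const_mul_atTop hc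
  have h3 := (h.comp h2).const_mul (c ^ 2)⁻¹
  rw [mul_zero] at h3
  refine h3.congr fun x => ?_
  simp only [Function.comp_apply]
  field_simp

theorem pf_ABSc (hSPT : T_SPTc) : T_ABSc := by
  intro K _ _ σ D f m ψ hD hψ g M c a hc hg' hg ha
  obtain ⟨C, hC, hS⟩ := hSPT
  obtain ⟨hmeas, hbd⟩ := hS K σ D f m ψ hD hψ
  have hM : 0 ≤ M := by
    have h1 := (hg 1 le_rfl).2.1
    have h2 := (norm_nonneg _).trans h1
    have h3 := Real.exp_pos (-(c * 1))
    by_contra h4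
    push Not at h4
    nlinarith
  have hmg : AEStronglyMeasurable (deriv g) (volume.restrict (Ioi 1)) :=
    (hg'.mono Ioi_subset_Ici_self).aestronglyMeasurable measurableSet_Ioi
  have hpt : ∀ x : ℝ, 1 ≤ x → ‖Sc ψ x * deriv g x‖ ≤ C * M * (x ^ 2 * Real.exp (-(c * x))) := by
    intro x hx
    rw [norm_mul]
    calc ‖Sc ψ x‖ * ‖deriv g x‖ ≤ (C * x ^ 2) * (M * Real.exp (-(c * x))) :=
          mul_le_mul (hbd x hx) (hg x hx).2.2 (norm_nonneg _) (by positivity)
      _ = C * M * (x ^ 2 * Real.exp (-(c * x))) := by ring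
  have hint : IntegrableOn (fun x : ℝ => Sc ψ x * deriv g x) (Ioi 1) := by
    refine Integrable.mono' ((int_exp hc).const_mul (C * M))
      (hmeas.aestronglyMeasurable.mul hmg) ?_
    refine (ae_restrict_iff' measurableSet_Ioi).2 (Eventually.of_forall fun x hx => ?_)
    exact hpt x (le_of_lt hx)
  refine ⟨hint, ?_⟩
  have hsum : ∀ t : ℝ, ∑ k ∈ Finset.Icc 0 ⌊t⌋₊, lc ψ k = Sc ψ t := fun t => sum_Icc_lc ψ _
  have hlim : Tendsto (fun n : ℕ => g n * ∑ k ∈ Finset.Icc 0 n, lc ψ k) atTop (𝓝 0) := by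
    have h1 := ((tendsto_exp_sq hc).comp tendsto_natCast_atTop_atTop).const_mul (C * M)
    rw [mul_zero] at h1
    refine squeeze_zero_norm' ?_ h1
    filter_upwards [eventually_ge_atTop 1] with n hn
    have hn1 : (1 : ℝ) ≤ n := by exact_mod_cast hn
    have h2 : ∑ k ∈ Finset.Icc 0 n, lc ψ k = Sc ψ (n : ℝ) := by
      rw [← hsum (n : ℝ), Nat.floor_natCast]
    rw [h2, norm_mul]
    simp only [Function.comp_apply]
    calc ‖g n‖ * ‖Sc ψ n‖ ≤ (M * Real.exp (-(c * n))) * (C * (n : ℝ) ^ 2) :=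
          mul_le_mul (hg n hn1).2.1 (hbd n hn1) (norm_nonneg _) (by positivity)
      _ = C * M * ((n : ℝ) ^ 2 * Real.exp (-(c * n))) := by ring
  have hdom : (fun t : ℝ => deriv g t * ∑ k ∈ Finset.Icc 0 ⌊t⌋₊, lc ψ k) =O[atTop]
      (fun x : ℝ => C * M * (x ^ 2 * Real.exp (-(c * x)))) := by
    refine Asymptotics.IsBigO.of_bound 1 ?_
    filter_upwards [eventually_ge_atTop 1] with t ht
    rw [hsum t, mul_comm (deriv g t), one_mul]
    exact (hpt t ht).trans (le_abs_self _)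
  have hmain := tendsto_sum_mul_atTop_nhds_one_sub_integral₀ (f := g) (c := lc ψ) (lc_zero ψ)
    (fun t ht => (hg t ht).1) (hg'.locallyIntegrableOn measurableSet_Ici) hlim hdom
    ⟨Ioi 1, Ioi_mem_atTop 1, (int_exp hc).const_mul (C * M)⟩
  have hU : Tendsto (Un K) atTop atTop := by
    apply tendsto_atTop_finset_of_monotone
    · intro n n' hnn' I hI
      rw [mem_Un] at hI ⊢
      omega
    · intro I
      exact ⟨nm I, mem_Un.2 le_rfl⟩
  have ha' : Tendsto (fun s : Finset (Ideal (𝓞 K))⁰ => ∑ J ∈ s, ψ J * g (nm J)) atTop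
      (𝓝 a) := by
    simpa [HasSum] using ha
  have h1 := ha'.comp hU
  have h2 : Tendsto (fun n : ℕ => ∑ k ∈ Finset.Icc 0 n, g k * lc ψ k) atTop (𝓝 a) := by
    refine h1.congr fun n => ?_
    exact sum_Un ψ g n
  have h3 := tendsto_nhds_unique h2 hmain
  rw [h3, zero_sub]
  congr 1
  refine setIntegral_congr_fun measurableSet_Ioi fun t _ => ?_
  show deriv g t * ∑ k ∈ Finset.Icc 0 ⌊t⌋₊, lc ψ k = Sc ψ t * deriv g t
  rw [hsum t, mul_comm]

end Pool.Agent.H55.FC
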